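import Pool.Agent.Run7.h999.SC.SEP

/-!
# Project SC, piece FKB: bijectivity of the glued map
-/

set_option autoImplicit false

namespace Run7.h999.SC

open Run7.h242.SC Set Metric
open scoped NNReal

lemma sg_pos {k : ℕ} (hk : 1 ≤ k) (i : ℕ) : 1 ≤ sg k i := by
  unfold sg; split_ifs <;> omega

lemma sg_inj {k i j : ℕ} (h : sg k i = sg k j) : i = j := by
  unfold sg at h; split_ifs at h <;> omega

lemma sg_surj {k : ℕ} (hk : 1 ≤ k) (j : ℕ) : ∃ i, sg k i = j + 1 := by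
  rcases lt_trichotomy (j + 1) k with h | h | h
  · refine ⟨j + 1, ?_⟩
    unfold sg
    rw [if_neg (by omega), if_pos h]
  · refine ⟨0, ?_⟩
    unfold sg
    rw [if_pos rfl, h]
  · refine ⟨j, ?_⟩
    unfold sg
    rw [if_neg (by omega), if_neg (by omega)]

lemma ep_cases (i : ℕ) : ep i = 1 ∨ ep i = -1 := by
  unfold ep; split_ifs <;> simp

lemma ep_sq (i : ℕ) : ep i * ep i = 1 := by
  rcases ep_cases i with h | h <;> rw [h] <;> norm_num

lemma ep_T3 (i : ℕ) {p : ℂ × ℝ} (hp : p ∈ T3) : ((ep i * p.1, p.2) : ℂ × ℝ) ∈ T3 := by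
  rcases ep_cases i with h | h
  · rw [h, one_mul]; exact hp
  · rw [h]
    obtain ⟨h1, h2, h3, h4, h5⟩ := hp
    refine ⟨by simpa using h1, by simpa using h2, h3, h4, fun h6 => h5 ?_⟩
    obtain ⟨a, b, c⟩ := h6
    exact ⟨by simpa using a, b, c⟩

lemma V_ne (j : ℕ) : (V j : ℂ) ≠ 0 := by exact_mod_cast (V_pos j).ne'

lemma norm_Q_le (i : ℕ) : ‖Q i‖ ≤ 1 := by
  unfold Q
  split_ifs
  · simp
  · unfold q
    rw [Complex.norm_real, Real.norm_of_nonneg (by positivity)]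
    exact pow_le_one₀ (by norm_num) (by norm_num)

/-- Points of the source of negative depth. -/
lemma src_neg {w : ℂ × ℝ} (hw : w ∈ Om3) (h : w.2 < 0) : w ∈ M3 := by
  rcases hw with hw | hw
  · exact hw
  · obtain ⟨i, p, hp, rfl⟩ := mem_iUnion.1 hw
    refine ⟨?_, hp.2.2.1, h⟩
    have h1 := norm_vz (V_pos i) hp.1.le hp.2.1.le
    have h2 := V_le i
    have h3 := norm_Q_le i
    show ‖Q i + (V i : ℂ) * p.1‖ < 3
    calc ‖Q i + (V i : ℂ) * p.1‖ ≤ ‖Q i‖ + ‖(V i : ℂ) * p.1‖ := norm_add_le _ _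
      _ < 3 := by linarith

lemma src_nonneg {w : ℂ × ℝ} (hw : w ∈ Om3) (h : 0 ≤ w.2) :
    ∃ (i : ℕ) (p : ℂ × ℝ), p ∈ T3 ∧ 0 ≤ p.2 ∧ w = Sig i p := by
  rcases hw with hw | hw
  · exact absurd hw.2.2 (not_lt.2 h)
  · obtain ⟨i, p, hp, rfl⟩ := mem_iUnion.1 hw
    exact ⟨i, p, hp, h, rfl⟩

theorem t_FKB (hI : S_GAMI) (hB : S_GAMB) (hC : S_CONE) (hS : S_SEP) : S_FKB := by
  intro C k ψ g hk hG hg
  obtain ⟨C', hC'⟩ := hC C
  obtain ⟨-, hbij⟩ := hC' ψ hG.1 hG.2.1 hG.2.2.1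
  obtain ⟨hS1, -, hS3⟩ := hS
  obtain ⟨hg1, hg2⟩ := hg
  -- values on the room
  have room : ∀ w ∈ Om3, w.2 < 0 → w ∈ M3 ∧ g w = cone ψ w ∧ g w ∈ M3 := by
    intro w hw h
    have hm := src_neg hw h
    have e := hg1 w hm.2.1 h.le
    exact ⟨hm, e, by rw [e]; exact hbij.mapsTo hm⟩
  -- values on the tubes
  have tube : ∀ w ∈ Om3, 0 ≤ w.2 → ∃ (i j : ℕ) (p : ℂ × ℝ), sg k i = j + 1 ∧ p ∈ T3 ∧ 0 ≤ p.2 ∧
      w = Sig i p ∧ g w = Gam (V (j + 1)) (q (j + 1)) (ep i * p.1, p.2) ∧ 0 ≤ (g w).2 := by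
    intro w hw h
    obtain ⟨i, p, hp, hp2, rfl⟩ := src_nonneg hw h
    obtain ⟨j, hj⟩ : ∃ j, sg k i = j + 1 := ⟨sg k i - 1, by have := sg_pos hk i; omega⟩
    have e := hg2 i p hp hp2
    rw [hj] at e
    refine ⟨i, j, p, hj, hp, hp2, rfl, e, ?_⟩
    rw [e]
    exact (gam_high hB (j + 1) (T3_cube (ep_T3 i hp)) hp2).2.1
  refine ⟨?_, ?_⟩
  · intro w hw w' hw' heq
    rcases lt_or_ge w.2 0 with h | h
    · obtain ⟨a1, a2, a3⟩ := room w hw h
      rcases lt_or_ge w'.2 0 with h' | h'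
      · obtain ⟨b1, b2, b3⟩ := room w' hw' h'
        exact hbij.injOn a1 b1 (by rw [← a2, ← b2, heq])
      · obtain ⟨-, -, -, -, -, -, -, -, b⟩ := tube w' hw' h'
        rw [heq] at a3
        exact absurd a3.2.2 (not_lt.2 b)
    · obtain ⟨i, j, p, hij, hp, hp2, rfl, a1, a2⟩ := tube w hw h
      rcases lt_or_ge w'.2 0 with h' | h'
      · obtain ⟨-, -, b3⟩ := room w' hw' h'
        rw [← heq] at b3
        exact absurd b3.2.2 (not_lt.2 a2)
      · obtain ⟨i', j', p', hij', hp', hp2', rfl, b1, b2⟩ := tube w' hw' h'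
        have hjj : j = j' := by
          by_contra hne
          refine hS1 j j' hne (ep i * p.1, p.2) (ep i' * p'.1, p'.2) (T3_cube (ep_T3 i hp))
            (T3_cube (ep_T3 i' hp')) hp2 hp2' ?_
          rw [← a1, ← b1, heq]
        subst hjj
        have hii : i = i' := sg_inj (by rw [hij, hij'])
        subst hii
        have hinj := hI (V (j + 1)) (V_pos _) (V_le _) (q (j + 1))
        have m1 := T3_cube (ep_T3 i hp)
        have m2 := T3_cube (ep_T3 i hp')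
        have e := hinj ⟨m1.1, m1.2.1, hp2, m1.2.2.2⟩ ⟨m2.1, m2.2.1, hp2', m2.2.2.2⟩
          (by rw [← a1, ← b1, heq])
        have e1 : ep i * p.1 = ep i * p'.1 := (Prod.ext_iff.1 e).1
        have e2 : p.2 = p'.2 := (Prod.ext_iff.1 e).2
        have e3 : p.1 = p'.1 := by
          have := congrArg (fun z => ep i * z) e1
          simp only [← mul_assoc, ep_sq, one_mul] at this
          exact this
        rw [Prod.ext e3 e2]
  · ext w'
    constructor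
    · rintro ⟨w, hw, rfl⟩
      rcases lt_or_ge w.2 0 with h | h
      · exact Or.inl (room w hw h).2.2
      · obtain ⟨i, j, p, hij, hp, hp2, rfl, a1, a2⟩ := tube w hw h
        rw [a1]
        exact Or.inr (mem_iUnion.2 ⟨j, _, ep_T3 i hp, rfl⟩)
    · intro hw'
      rcases lt_or_ge w'.2 0 with h | h
      · have hm := (hS3 w' hw').1 h
        obtain ⟨w, hw, rfl⟩ := hbij.surjOn hm
        exact ⟨w, Or.inl hw, hg1 w hw.2.1 hw.2.2.le⟩
      · obtain ⟨j, p, hp, hp2, rfl⟩ := (hS3 w' hw').2.1 h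
        obtain ⟨i, hi⟩ := sg_surj hk j
        refine ⟨Sig i (ep i * p.1, p.2), Or.inr (mem_iUnion.2 ⟨i, _, ep_T3 i hp, rfl⟩), ?_⟩
        rw [hg2 i (ep i * p.1, p.2) (ep_T3 i hp) hp2, hi]
        simp only [← mul_assoc, ep_sq, one_mul]

end Run7.h999.SC
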