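import Pool.Agent.Run7.h242.SC.Iface

/-!
# Project SC, piece SEP: the target tubes
-/

set_option autoImplicit false

namespace Run7.h999.SC

open Run7.h242.SC Set Metric

lemma V_pos (j : ℕ) : 0 < V j := by unfold V; positivity

lemma V_le (j : ℕ) : V j ≤ 1 / 32 := by
  unfold V
  have : (1 / 2 : ℝ) ^ j ≤ 1 := pow_le_one₀ (by norm_num) (by norm_num)
  linarith

/-- abbreviation: the radius. -/
lemma half_pow_pos (j : ℕ) : (0 : ℝ) < (1 / 2) ^ j := by positivity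

lemma half_pow_lt {i j : ℕ} (h : i < j) : (1 / 2 : ℝ) ^ j ≤ (1 / 2) ^ i / 2 := by
  have h1 : (1 / 2 : ℝ) ^ j ≤ (1 / 2) ^ (i + 1) :=
    pow_le_pow_of_le_one (by norm_num) (by norm_num) h
  rw [pow_succ] at h1
  linarith

lemma norm_q_sub (i j : ℕ) : ‖q i - q j‖ = |(1 / 2 : ℝ) ^ i - (1 / 2) ^ j| := by
  unfold q
  rw [← Complex.ofReal_sub, Complex.norm_real, Real.norm_eq_abs]

/-- Separation of the discs. -/
lemma sepq {i j : ℕ} (h : i ≠ j) :
    5 * V i + 5 * V j + (1 / 2 : ℝ) ^ j / 4 ≤ ‖q i - q j‖ := by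
  rw [norm_q_sub]
  unfold V
  rcases lt_or_gt_of_ne h with h | h
  · have h1 := half_pow_lt h
    have h2 := half_pow_pos j
    have := le_abs_self ((1 / 2 : ℝ) ^ i - (1 / 2) ^ j)
    linarith
  · have h1 := half_pow_lt h
    have h2 := half_pow_pos i
    have := neg_abs_le ((1 / 2 : ℝ) ^ i - (1 / 2) ^ j)
    linarith

lemma T3_cube {p : ℂ × ℝ} (hp : p ∈ T3) : p ∈ Cube :=
  ⟨hp.1.le, hp.2.1.le, hp.2.2.1.le, hp.2.2.2.1.le⟩

lemma norm_le_re_im (z : ℂ) : ‖z‖ ≤ |z.re| + |z.im| := Complex.norm_le_abs_re_add_abs_im z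

lemma re_smul (v : ℝ) (z : ℂ) : ((v : ℂ) * z).re = v * z.re := by simp
lemma im_smul (v : ℝ) (z : ℂ) : ((v : ℂ) * z).im = v * z.im := by simp

lemma norm_vz {v : ℝ} (hv : 0 < v) {z : ℂ} (h1 : |z.re| ≤ 1) (h2 : |z.im| ≤ 1) :
    ‖(v : ℂ) * z‖ ≤ 2 * v := by
  rw [norm_mul, Complex.norm_real, Real.norm_of_nonneg hv.le]
  have := norm_le_re_im z
  nlinarith

section
variable (hB : S_GAMB)
include hB

/-- level ≤ 0 -/
lemma gam_low (j : ℕ) {p : ℂ × ℝ} (hp : p ∈ Cube) (h : p.2 ≤ 0) :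
    Gam (V j) (q j) p = (q j + (V j : ℂ) * p.1, p.2) :=
  (hB (V j) (V_pos j) (V_le j) (q j) p hp.1 hp.2.1 hp.2.2.2).1 h

lemma gam_high (j : ℕ) {p : ℂ × ℝ} (hp : p ∈ Cube) (h : 0 ≤ p.2) :
    ‖(Gam (V j) (q j) p).1 - q j‖ ≤ 5 * V j ∧ 0 ≤ (Gam (V j) (q j) p).2 ∧
      (Gam (V j) (q j) p).2 ≤ 5 * V j :=
  (hB (V j) (V_pos j) (V_le j) (q j) p hp.1 hp.2.1 hp.2.2.2).2.2.1 h

lemma gam_pos (j : ℕ) {p : ℂ × ℝ} (hp : p ∈ Cube) (h : 0 < p.2) :
    0 < (Gam (V j) (q j) p).2 :=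
  (hB (V j) (V_pos j) (V_le j) (q j) p hp.1 hp.2.1 hp.2.2.2).2.2.2.1 h

lemma gam_neg (j : ℕ) {p : ℂ × ℝ} (hp : p ∈ Cube) (h : p.2 < 0) :
    (Gam (V j) (q j) p).2 < 0 := by
  rw [gam_low hB j hp h.le]; exact h

lemma gam_nonpos (j : ℕ) {p : ℂ × ℝ} (hp : p ∈ Cube) (h : p.2 ≤ 0) :
    (Gam (V j) (q j) p).2 ≤ 0 := by
  rw [gam_low hB j hp h]; exact h

/-- Points of the target of positive depth. -/
lemma om_pos {w : ℂ × ℝ} (hw : w ∈ Om3') (h : 0 < w.2) :
    ∃ (j : ℕ) (p : ℂ × ℝ), p ∈ T3 ∧ 0 < p.2 ∧ w = Gam (V (j + 1)) (q (j + 1)) p := by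
  rcases hw with hw | hw
  · exact absurd hw.2.2 (not_lt.2 h.le)
  · obtain ⟨j, p, hp, rfl⟩ := mem_iUnion.1 hw
    refine ⟨j, p, hp, ?_, rfl⟩
    by_contra hc
    exact absurd h (not_lt.2 (gam_nonpos hB (j + 1) (T3_cube hp) (not_lt.1 hc)))

lemma om_nonneg {w : ℂ × ℝ} (hw : w ∈ Om3') (h : 0 ≤ w.2) :
    ∃ (j : ℕ) (p : ℂ × ℝ), p ∈ T3 ∧ 0 ≤ p.2 ∧ w = Gam (V (j + 1)) (q (j + 1)) p := by
  rcases hw with hw | hw
  · exact absurd hw.2.2 (not_lt.2 h)
  · obtain ⟨j, p, hp, rfl⟩ := mem_iUnion.1 hw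
    refine ⟨j, p, hp, ?_, rfl⟩
    by_contra hc
    exact absurd h (not_le.2 (gam_neg hB (j + 1) (T3_cube hp) (not_le.1 hc)))

lemma om_neg {w : ℂ × ℝ} (hw : w ∈ Om3') (h : w.2 < 0) : w ∈ M3 := by
  rcases hw with hw | hw
  · exact hw
  · obtain ⟨j, p, hp, rfl⟩ := mem_iUnion.1 hw
    have hp2 : p.2 < 0 := by
      by_contra hc
      exact absurd h (not_lt.2 (gam_high hB (j + 1) (T3_cube hp) (not_lt.1 hc)).2.1)
    rw [gam_low hB (j + 1) (T3_cube hp) hp2.le]
    refine ⟨?_, hp.2.2.1, hp2⟩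
    have h1 := norm_vz (V_pos (j + 1)) hp.1.le hp.2.1.le
    have h2 := V_le (j + 1)
    have h3 : ‖q (j + 1)‖ ≤ 1 := by
      unfold q
      rw [Complex.norm_real, Real.norm_of_nonneg (by positivity)]
      exact pow_le_one₀ (by norm_num) (by norm_num)
    calc ‖q (j + 1) + (V (j + 1) : ℂ) * p.1‖ ≤ ‖q (j + 1)‖ + ‖(V (j + 1) : ℂ) * p.1‖ :=
          norm_add_le _ _
      _ < 3 := by linarith

omit hB in
lemma same_tube {i j : ℕ} {x y : ℂ} (hx : ‖x - q i‖ ≤ 5 * V i) (hy : ‖y - q j‖ ≤ 5 * V j)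
    (hxy : ‖x - y‖ < (1 / 2 : ℝ) ^ j / 4) : i = j := by
  by_contra hne
  have h1 := sepq hne
  have h2 : ‖q i - q j‖ ≤ ‖x - q i‖ + ‖x - y‖ + ‖y - q j‖ := by
    have : q i - q j = -(x - q i) + (x - y) + (y - q j) := by ring
    rw [this]
    calc ‖-(x - q i) + (x - y) + (y - q j)‖ ≤ ‖-(x - q i) + (x - y)‖ + ‖y - q j‖ := norm_add_le _ _
      _ ≤ ‖-(x - q i)‖ + ‖x - y‖ + ‖y - q j‖ := by
        gcongr
        exact norm_add_le _ _
      _ = _ := by rw [norm_neg]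
  linarith

end

theorem t_SEP (hB : S_GAMB) : S_SEP := by
  refine ⟨?_, ?_, ?_⟩
  · intro i j hij p p' hp hp' h0 h0' heq
    have h1 := (gam_high hB (i + 1) hp h0).1
    have h2 := (gam_high hB (j + 1) hp' h0').1
    rw [heq] at h1
    have h3 := same_tube h1 h2 (by simp)
    omega
  · intro j p hp
    have hc := T3_cube hp
    have hV := V_pos (j + 1)
    have hq : (0 : ℝ) < (1 / 2) ^ (j + 1) / 4 := by positivity
    rcases lt_or_ge 0 p.2 with hpos | hneg
    · have hD := gam_pos hB (j + 1) hc hpos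
      refine ⟨min (Gam (V (j + 1)) (q (j + 1)) p).2 ((1 / 2) ^ (j + 1) / 4),
        lt_min hD hq, fun w hw hwr => ?_⟩
      have hr1 := lt_of_lt_of_le hwr (min_le_left _ _)
      have hr2 := lt_of_lt_of_le hwr (min_le_right _ _)
      have hn1 : ‖w.1 - (Gam (V (j + 1)) (q (j + 1)) p).1‖ ≤
          ‖w - Gam (V (j + 1)) (q (j + 1)) p‖ := norm_fst_le (w - Gam (V (j + 1)) (q (j + 1)) p)
      have hn2 : ‖w.2 - (Gam (V (j + 1)) (q (j + 1)) p).2‖ ≤
          ‖w - Gam (V (j + 1)) (q (j + 1)) p‖ := norm_snd_le (w - Gam (V (j + 1)) (q (j + 1)) p)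
      have hw2 : 0 < w.2 := by
        rw [Real.norm_eq_abs] at hn2
        have := neg_abs_le (w.2 - (Gam (V (j + 1)) (q (j + 1)) p).2)
        linarith
      obtain ⟨i, p', hp', hp'2, rfl⟩ := om_pos hB hw hw2
      have e := same_tube (gam_high hB (i + 1) (T3_cube hp') hp'2.le).1
        (gam_high hB (j + 1) hc hpos.le).1 (lt_of_le_of_lt hn1 hr2)
      have e' : i = j := by omega
      subst e'
      exact ⟨p', hp', rfl⟩
    · have hG := gam_low hB (j + 1) hc hneg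
      set v := V (j + 1) with hv
      have hm : 0 < v * min (1 - |p.1.re|) (1 - |p.1.im|) := by
        refine mul_pos hV (lt_min ?_ ?_)
        · linarith [hp.1]
        · linarith [hp.2.1]
      refine ⟨min (v * min (1 - |p.1.re|) (1 - |p.1.im|)) (1 + p.2),
        lt_min hm (by linarith [hp.2.2.1]), fun w hw hwr => ?_⟩
      have hr1 := lt_of_lt_of_le hwr (min_le_left _ _)
      have hr2 := lt_of_lt_of_le hwr (min_le_right _ _)
      rw [hG] at hr1 hr2
      have hn1 : ‖w.1 - (q (j + 1) + (v : ℂ) * p.1)‖ ≤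
          ‖w - (q (j + 1) + (v : ℂ) * p.1, p.2)‖ :=
        norm_fst_le (w - (q (j + 1) + (v : ℂ) * p.1, p.2))
      have hn2 : ‖w.2 - p.2‖ ≤ ‖w - (q (j + 1) + (v : ℂ) * p.1, p.2)‖ :=
        norm_snd_le (w - (q (j + 1) + (v : ℂ) * p.1, p.2))
      set z : ℂ := (w.1 - q (j + 1)) / (v : ℂ) with hz
      have hvC : (v : ℂ) ≠ 0 := by exact_mod_cast hV.ne'
      have hw1 : w.1 = q (j + 1) + (v : ℂ) * z := by
        rw [hz]; field_simp; ring
      have hdz : ‖w.1 - (q (j + 1) + (v : ℂ) * p.1)‖ = v * ‖z - p.1‖ := by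
        rw [hw1]
        have : q (j + 1) + (v : ℂ) * z - (q (j + 1) + (v : ℂ) * p.1) = (v : ℂ) * (z - p.1) := by
          ring
        rw [this, norm_mul, Complex.norm_real, Real.norm_of_nonneg hV.le]
      have hzz : ‖z - p.1‖ < min (1 - |p.1.re|) (1 - |p.1.im|) := by
        have : v * ‖z - p.1‖ < v * min (1 - |p.1.re|) (1 - |p.1.im|) := by
          rw [← hdz]; exact lt_of_le_of_lt hn1 hr1
        exact lt_of_mul_lt_mul_left this hV.le
      have hzre : |z.re| < 1 := by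
        have h1 := lt_of_lt_of_le hzz (min_le_left _ _)
        have h2 : |z.re - p.1.re| ≤ ‖z - p.1‖ := by
          have := Complex.abs_re_le_norm (z - p.1)
          simpa using this
        have h3 : |z.re| ≤ |z.re - p.1.re| + |p.1.re| := by
          have := abs_add_le (z.re - p.1.re) p.1.re
          simpa using this
        linarith
      have hzim : |z.im| < 1 := by
        have h1 := lt_of_lt_of_le hzz (min_le_right _ _)
        have h2 : |z.im - p.1.im| ≤ ‖z - p.1‖ := by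
          have := Complex.abs_im_le_norm (z - p.1)
          simpa using this
        have h3 : |z.im| ≤ |z.im - p.1.im| + |p.1.im| := by
          have := abs_add_le (z.im - p.1.im) p.1.im
          simpa using this
        linarith
      have hw2 : -1 < w.2 := by
        have := lt_of_le_of_lt hn2 hr2
        rw [Real.norm_eq_abs] at this
        have := neg_abs_le (w.2 - p.2)
        linarith
      rcases lt_or_ge 0 w.2 with hwp | hwn
      · obtain ⟨i, p', hp', hp'2, hwe⟩ := om_pos hB hw hwp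
        have a1 := (gam_high hB (i + 1) (T3_cube hp') hp'2.le).1
        rw [← hwe] at a1
        have a2 : ‖w.1 - q (j + 1)‖ ≤ 5 * V (j + 1) := by
          rw [hw1]
          have : q (j + 1) + (v : ℂ) * z - q (j + 1) = (v : ℂ) * z := by ring
          rw [this]
          have := norm_vz hV hzre.le hzim.le
          linarith
        have e := same_tube a1 a2 (by simp)
        have e' : i = j := by omega
        subst e'
        exact ⟨p', hp', hwe.symm⟩
      · refine ⟨(z, w.2), ⟨hzre, hzim, hw2, by show w.2 < 1; linarith, ?_⟩, ?_⟩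
        · rintro ⟨-, h2, -⟩
          have h2' : (1 : ℝ) / 2 ≤ w.2 := h2
          linarith
        · have hcz : ((z, w.2) : ℂ × ℝ) ∈ Cube :=
            ⟨hzre.le, hzim.le, hw2.le, by show w.2 ≤ 1; linarith⟩
          rw [hv, gam_low hB (j + 1) hcz hwn]
          refine Prod.ext ?_ rfl
          show q (j + 1) + (V (j + 1) : ℂ) * z = w.1
          rw [hw1]
  · intro w hw
    exact ⟨fun h => om_neg hB hw h, fun h => om_nonneg hB hw h, fun h => om_pos hB hw h⟩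

end Run7.h999.SC
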